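import Pool.Agent.H14R3.Aug.Stmts

/-! TaskRestrSol of project AUG. -/

set_option autoImplicit false

open scoped ENNReal InnerProductSpace

namespace Pool.Agent.H14R3.Aug

theorem RestrSol_key {n : ℕ} (d e : G n → ℂ) (t : Fin n × Bool) (V : List (Fin n × Bool)) (v : G n)
    (hV : FreeGroup.mk V = v) (he1 : ∀ g, Ends t g → 2 ≤ len g → e g = d (g * v))
    (he0 : ∀ g, ¬ (Ends t g ∧ 2 ≤ len g) → e g = 0) :
    ∀ W : List (Fin n × Bool), FreeGroup.IsReduced W → W.getLast? = some t →
      (((W ++ V).tails).map fun w => d (FreeGroup.mk w)).sum =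
        ((W.tails).map fun w => e (FreeGroup.mk w)).sum + d (FreeGroup.mk [t] * v) +
          ((V.tails).map fun w => d (FreeGroup.mk w)).sum := by
  intro W
  induction W with
  | nil => intro _ h; simp at h
  | cons a W ih =>
    intro hred hlast
    cases W with
    | nil =>
      have hat : a = t := by simpa using hlast
      subst hat
      have h1 : e (FreeGroup.mk [a]) = 0 := by
        apply he0
        rintro ⟨_, h⟩
        unfold len at h
        rw [FreeGroup.toWord_mk, FreeGroup.IsReduced.singleton.reduce_eq] at h
        simp at h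
      have h2 : e (FreeGroup.mk []) = 0 := by
        apply he0
        rintro ⟨_, h⟩
        unfold len at h
        rw [FreeGroup.toWord_mk, FreeGroup.IsReduced.nil.reduce_eq] at h
        simp at h
      have h3 : FreeGroup.mk [a] * v = FreeGroup.mk (a :: V) := by
        rw [← hV, FreeGroup.mul_mk]; rfl
      have e1 : ([a] ++ V).tails = (a :: V) :: V.tails := rfl
      have e2 : ([a] : List (Fin n × Bool)).tails = [[a], []] := rfl
      rw [e1, e2, List.map_cons, List.sum_cons, List.map_cons, List.map_cons, List.map_nil,
        List.sum_cons, List.sum_cons, List.sum_nil, h1, h2, h3]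
      ring
    | cons b W' =>
      have hred' : FreeGroup.IsReduced (b :: W') :=
        (List.isChain_cons_cons.mp hred).2
      have hlast' : (b :: W').getLast? = some t := by
        rw [List.getLast?_cons_cons] at hlast
        exact hlast
      have ih' := ih hred' hlast'
      have hw : (FreeGroup.mk (a :: b :: W')).toWord = a :: b :: W' := by
        rw [FreeGroup.toWord_mk, hred.reduce_eq]
      have h1 : e (FreeGroup.mk (a :: b :: W')) = d (FreeGroup.mk ((a :: b :: W') ++ V)) := by
        rw [he1 _ (by unfold Ends; rw [hw]; exact hlast) (by unfold len; rw [hw]; simp), ← hV,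
          FreeGroup.mul_mk]
      have e1 : ((a :: b :: W') ++ V).tails = ((a :: b :: W') ++ V) :: ((b :: W') ++ V).tails := rfl
      have e2 : (a :: b :: W').tails = (a :: b :: W') :: (b :: W').tails := rfl
      rw [e1, e2, List.map_cons, List.map_cons, List.sum_cons, List.sum_cons, ih', h1]
      ring

theorem TaskRestrSol_proof : TaskRestrSol := by
  intro hA hB n k x S R hx hS d hd t v htv e he1 he0
  refine ⟨he0, ?_⟩
  intro i h hEh hlen
  have hd' : eqn x S i (h * v) d = 0 := hd.2 i (h * v)
  have hpot : ∀ u ∈ S, Pot d (u * (h * v)) =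
      Pot e (u * h) + (d (FreeGroup.mk [t] * v) + Pot d v) := by
    intro u hu
    have hE : Ends t (u * h) := by
      obtain ⟨pre, hpre⟩ := hA n u h
      unfold Ends
      rw [← hpre, List.getLast?_append, List.getLast?_drop]
      have h1 : ¬ h.toWord.length ≤ len u := by
        have := hS u hu
        have h2 : R + 1 ≤ h.toWord.length := hlen
        omega
      rw [if_neg h1]
      have h3 : h.toWord.getLast? = some t := hEh
      rw [h3]
      rfl
    have hW : (u * h * v).toWord = (u * h).toWord ++ v.toWord := hB n (u * h) v t hE htv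
    have hkey := RestrSol_key (fun g => d g) (fun g => e g) t v.toWord v FreeGroup.mk_toWord he1 he0
      (u * h).toWord FreeGroup.isReduced_toWord hE
    rw [← mul_assoc]
    unfold Pot
    rw [hW, hkey, add_assoc]
  have h1 : eqn x S i h e = eqn x S i (h * v) d -
      (∑ u ∈ S, x i u) * (d (FreeGroup.mk [t] * v) + Pot d v) := by
    unfold eqn
    rw [Finset.sum_mul, ← Finset.sum_sub_distrib]
    refine Finset.sum_congr rfl (fun u hu => ?_)
    rw [hpot u hu]
    ring
  rw [h1, hd', hx i]
  ring

end Pool.Agent.H14R3.Aug
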